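import Mathlib
import Pool.Agent.TH559.LE.Bkw

set_option autoImplicit false

/-!
# Total colourings of sparse graphs extending a precoloured distance-3 matching

The reductions and the counting argument.
-/

namespace Pool.Agent.H65T.Sparse

open Finset Classical

variable {V : Type} [Fintype V]

/-- The degree. -/
noncomputable def dg (G : SimpleGraph V) (v : V) : ℕ := (univ.filter (fun w => G.Adj v w)).card

/-- The vertices of `H`. -/
def InH (H : SimpleGraph V) (v : V) : Prop := ∃ w, H.Adj v w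

/-- Total colourings of `G` that extend the colouring `(f₀, g₀)` of `H`; the condition at an edge
between a vertex of `H` and a vertex outside `H` is replaced by `f v ∉ P v`. -/
structure Tot (G H : SimpleGraph V) (k : ℕ) (P : V → Finset ℕ) (f₀ : V → ℕ) (g₀ : V → V → ℕ)
    (f : V → ℕ) (g : V → V → ℕ) : Prop where
  symm : ∀ u v, g u v = g v u
  vert : ∀ u v, G.Adj u v → ¬ InH H u → ¬ InH H v → f u ≠ f v
  pre : ∀ v, ¬ InH H v → f v ∉ P v
  edge : ∀ u v w, G.Adj u v → G.Adj u w → v ≠ w → g u v ≠ g u w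
  inc : ∀ u v, G.Adj u v → g u v ≠ f u
  fk : ∀ v, f v < k
  gk : ∀ u v, G.Adj u v → g u v < k
  fH : ∀ v, InH H v → f v = f₀ v
  gH : ∀ u v, H.Adj u v → g u v = g₀ u v

theorem ext_lemma {G G' H : SimpleGraph V} {k : ℕ} {P : V → Finset ℕ} {f₀ : V → ℕ}
    {g₀ : V → V → ℕ} {f : V → ℕ} {g : V → V → ℕ} (hT : Tot G' H k P f₀ g₀ f g)
    (g' : V → V → ℕ) (A : Finset V) (hA1 : ∀ a ∈ A, ¬ InH H a)
    (hA2 : ∀ a ∈ A, 2 * dg G a + 2 < k) (hA3 : ∀ a ∈ A, ∀ b ∈ A, ¬ G.Adj a b)
    (hP : ∀ v, (P v).card ≤ 2)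
    (hF : ∀ u v, G.Adj u v → ¬ G'.Adj u v → u ∈ A ∨ v ∈ A ∨ InH H u ∨ InH H v)
    (symm' : ∀ u v, g' u v = g' v u)
    (edge' : ∀ u v w, G.Adj u v → G.Adj u w → v ≠ w → g' u v ≠ g' u w)
    (inc' : ∀ u v, G.Adj u v → u ∉ A → g' u v ≠ f u) (gk' : ∀ u v, G.Adj u v → g' u v < k)
    (gH' : ∀ u v, H.Adj u v → g' u v = g₀ u v) :
    ∃ f' g'', Tot G H k P f₀ g₀ f' g'' := by
  have key : ∀ v, ∃ c, (v ∈ A → c < k ∧ (∀ w, G.Adj v w → f w ≠ c ∧ g' v w ≠ c) ∧ c ∉ P v) ∧
      (v ∉ A → c = f v) := by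
    intro v
    by_cases hv : v ∈ A
    · have hc : ((univ.filter (fun w => G.Adj v w)).image f ∪
          (univ.filter (fun w => G.Adj v w)).image (g' v) ∪ P v).card < (range k).card := by
        have h1 : ((univ.filter (fun w => G.Adj v w)).image f).card ≤ dg G v := card_image_le
        have h2 : ((univ.filter (fun w => G.Adj v w)).image (g' v)).card ≤ dg G v :=
          card_image_le
        have h3 := hA2 v hv
        have h4 := hP v
        have h5 := card_union_le ((univ.filter (fun w => G.Adj v w)).image f ∪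
          (univ.filter (fun w => G.Adj v w)).image (g' v)) (P v)
        have h6 := card_union_le ((univ.filter (fun w => G.Adj v w)).image f)
          ((univ.filter (fun w => G.Adj v w)).image (g' v))
        rw [card_range]
        omega
      obtain ⟨c, hc1, hc2⟩ := exists_mem_notMem_of_card_lt_card hc
      refine ⟨c, fun _ => ⟨mem_range.1 hc1, ?_, ?_⟩, fun h => absurd hv h⟩
      · intro w hw
        constructor
        · intro h
          exact hc2 (mem_union_left _ (mem_union_left _ (mem_image.2 ⟨w, by simp [hw], h⟩)))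
        · intro h
          exact hc2 (mem_union_left _ (mem_union_right _ (mem_image.2 ⟨w, by simp [hw], h⟩)))
      · intro h
        exact hc2 (mem_union_right _ h)
    · exact ⟨f v, fun h => absurd h hv, fun _ => rfl⟩
  choose f' hf1 hf2 using key
  refine ⟨f', g', ⟨symm', ?_, ?_, edge', ?_, ?_, gk', ?_, gH'⟩⟩
  · intro u v huv hu hv
    by_cases h1 : u ∈ A
    · by_cases h2 : v ∈ A
      · exact absurd huv (hA3 u h1 v h2)
      · rw [hf2 v h2]
        exact fun h => ((hf1 u h1).2.1 v huv).1 h.symm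
    · by_cases h2 : v ∈ A
      · rw [hf2 u h1]
        exact ((hf1 v h2).2.1 u huv.symm).1
      · rw [hf2 u h1, hf2 v h2]
        by_cases h3 : G'.Adj u v
        · exact hT.vert u v h3 hu hv
        · rcases hF u v huv h3 with h | h | h | h
          · exact absurd h h1
          · exact absurd h h2
          · exact absurd h hu
          · exact absurd h hv
  · intro v hv
    by_cases h1 : v ∈ A
    · exact (hf1 v h1).2.2
    · rw [hf2 v h1]
      exact hT.pre v hv
  · intro u v huv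
    by_cases h1 : u ∈ A
    · exact ((hf1 u h1).2.1 v huv).2
    · rw [hf2 u h1]
      exact inc' u v huv h1
  · intro v
    by_cases h1 : v ∈ A
    · exact (hf1 v h1).1
    · rw [hf2 v h1]
      exact hT.fk v
  · intro v hv
    have h1 : v ∉ A := fun h => hA1 v h hv
    rw [hf2 v h1]
    exact hT.fH v hv

theorem one_edge {G H : SimpleGraph V} {k : ℕ} {P : V → Finset ℕ} {f₀ : V → ℕ}
    {g₀ : V → V → ℕ} {f : V → ℕ} {g : V → V → ℕ} (u v : V) (huv : G.Adj u v)
    (hnH : ¬ H.Adj u v) (hP : ∀ v, (P v).card ≤ 2)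
    (hT : Tot (G.deleteEdges {s(u, v)}) H k P f₀ g₀ f g)
    (h : (¬ InH H u ∧ 2 * dg G u + 2 < k ∧ dg G u + dg G v ≤ k) ∨
      (InH H u ∧ dg G u + dg G v < k)) :
    ∃ f' g', Tot G H k P f₀ g₀ f' g' := by
  have hne : u ≠ v := huv.ne
  have hadj : ∀ x y, (G.deleteEdges {s(u, v)}).Adj x y ↔ G.Adj x y ∧ s(x, y) ≠ s(u, v) := by
    intro x y
    rw [SimpleGraph.deleteEdges_adj]
    simp
  -- the forbidden colours
  set X : Finset ℕ := ((univ.filter (fun w => G.Adj v w)).erase u).image (g v) ∪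
    ((univ.filter (fun w => G.Adj u w)).erase v).image (g u) with hX
  have hXc : X.card + 2 ≤ dg G u + dg G v := by
    have h1 : (((univ.filter (fun w => G.Adj v w)).erase u).image (g v)).card ≤ dg G v - 1 := by
      refine card_image_le.trans ?_
      rw [card_erase_of_mem (by simp [huv.symm])]
      rfl
    have h2 : (((univ.filter (fun w => G.Adj u w)).erase v).image (g u)).card ≤ dg G u - 1 := by
      refine card_image_le.trans ?_
      rw [card_erase_of_mem (by simp [huv])]
      rfl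
    have h3 : 0 < dg G v := card_pos.2 ⟨u, by simp [huv.symm]⟩
    have h4 : 0 < dg G u := card_pos.2 ⟨v, by simp [huv]⟩
    have h5 := card_union_le (((univ.filter (fun w => G.Adj v w)).erase u).image (g v))
      (((univ.filter (fun w => G.Adj u w)).erase v).image (g u))
    rw [hX]
    omega
  have hex : ∃ c, c < k ∧ c ∉ X ∧ c ≠ f v ∧ (InH H u → c ≠ f u) := by
    rcases h with ⟨hu, -, h2⟩ | ⟨hu, h2⟩
    · have hc : (insert (f v) X).card < (range k).card := by
        have := card_insert_le (f v) X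
        rw [card_range]
        omega
      obtain ⟨c, hc1, hc2⟩ := exists_mem_notMem_of_card_lt_card hc
      rw [mem_insert, not_or] at hc2
      exact ⟨c, mem_range.1 hc1, hc2.2, hc2.1, fun h => absurd h hu⟩
    · have hc : (insert (f u) (insert (f v) X)).card < (range k).card := by
        have := card_insert_le (f v) X
        have := card_insert_le (f u) (insert (f v) X)
        rw [card_range]
        omega
      obtain ⟨c, hc1, hc2⟩ := exists_mem_notMem_of_card_lt_card hc
      rw [mem_insert, mem_insert, not_or, not_or] at hc2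
      exact ⟨c, mem_range.1 hc1, hc2.2.2, hc2.2.1, fun _ => hc2.1⟩
  obtain ⟨c, hck, hcX, hcv, hcu⟩ := hex
  have hcX1 : ∀ w, G.Adj v w → w ≠ u → g v w ≠ c := by
    intro w hw hwu hh
    apply hcX
    rw [hX]
    exact mem_union_left _ (mem_image.2 ⟨w, mem_erase.2 ⟨hwu, by simp [hw]⟩, hh⟩)
  have hcX2 : ∀ w, G.Adj u w → w ≠ v → g u w ≠ c := by
    intro w hw hwu hh
    apply hcX
    rw [hX]
    exact mem_union_right _ (mem_image.2 ⟨w, mem_erase.2 ⟨hwu, by simp [hw]⟩, hh⟩)
  set g' : V → V → ℕ := fun x y => if s(x, y) = s(u, v) then c else g x y with hg'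
  have hg1 : g' u v = c := by simp [hg']
  have hg1' : g' v u = c := by simp [hg']
  have hg2 : ∀ x y, s(x, y) ≠ s(u, v) → g' x y = g x y := by
    intro x y hxy
    simp only [hg', if_neg hxy]
  have hsym : ∀ x y, g' x y = g' y x := by
    intro x y
    simp only [hg']
    rw [Sym2.eq_swap, hT.symm x y]
  have hcase : ∀ x y, s(x, y) = s(u, v) → (x = u ∧ y = v) ∨ (x = v ∧ y = u) := by
    intro x y hxy
    simpa using hxy
  -- edge colours at a common vertex
  have hedge : ∀ x y z, G.Adj x y → G.Adj x z → y ≠ z → g' x y ≠ g' x z := by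
    intro x y z hxy hxz hyz
    by_cases h1 : s(x, y) = s(u, v)
    · have h2 : s(x, z) ≠ s(u, v) := by
        intro h2
        rw [← h1] at h2
        apply hyz
        rcases Sym2.eq_iff.1 h2 with ⟨_, h⟩ | ⟨h3, h4⟩
        · exact h.symm
        · rw [h4, h3]
      rw [hg2 x z h2]
      rcases hcase x y h1 with ⟨rfl, rfl⟩ | ⟨rfl, rfl⟩
      · rw [hg1]
        exact (hcX2 z hxz (Ne.symm hyz)).symm
      · rw [hg1']
        exact (hcX1 z hxz (Ne.symm hyz)).symm
    · rw [hg2 x y h1]
      by_cases h2 : s(x, z) = s(u, v)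
      · rcases hcase x z h2 with ⟨rfl, rfl⟩ | ⟨rfl, rfl⟩
        · rw [hg1]
          exact hcX2 y hxy hyz
        · rw [hg1']
          exact hcX1 y hxy hyz
      · rw [hg2 x z h2]
        exact hT.edge x y z ((hadj x y).2 ⟨hxy, h1⟩) ((hadj x z).2 ⟨hxz, h2⟩) hyz
  have hgk : ∀ x y, G.Adj x y → g' x y < k := by
    intro x y hxy
    by_cases h1 : s(x, y) = s(u, v)
    · simp only [hg', h1, if_true]
      exact hck
    · rw [hg2 x y h1]
      exact hT.gk x y ((hadj x y).2 ⟨hxy, h1⟩)
  have hgH : ∀ x y, H.Adj x y → g' x y = g₀ x y := by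
    intro x y hxy
    have h1 : s(x, y) ≠ s(u, v) := by
      intro h1
      rcases hcase x y h1 with ⟨rfl, rfl⟩ | ⟨rfl, rfl⟩
      · exact hnH hxy
      · exact hnH hxy.symm
    rw [hg2 x y h1]
    exact hT.gH x y hxy
  have hinc : ∀ x y, G.Adj x y → (x = u → InH H u) → g' x y ≠ f x := by
    intro x y hxy hx
    by_cases h1 : s(x, y) = s(u, v)
    · rcases hcase x y h1 with ⟨rfl, rfl⟩ | ⟨rfl, rfl⟩
      · rw [hg1]
        exact hcu (hx rfl)
      · rw [hg1']
        exact hcv
    · rw [hg2 x y h1]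
      exact hT.inc x y ((hadj x y).2 ⟨hxy, h1⟩)
  rcases h with ⟨hu, h2, h3⟩ | ⟨hu, h2⟩
  · refine ext_lemma hT g' {u} ?_ ?_ ?_ hP ?_ hsym hedge ?_ hgk hgH
    · intro a ha
      rw [mem_singleton.1 ha]
      exact hu
    · intro a ha
      rw [mem_singleton.1 ha]
      exact h2
    · intro a ha b hb
      rw [mem_singleton.1 ha, mem_singleton.1 hb]
      exact G.irrefl
    · intro x y hxy hn
      rw [hadj] at hn
      push Not at hn
      rcases hcase x y (hn hxy) with ⟨rfl, rfl⟩ | ⟨rfl, rfl⟩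
      · left; simp
      · right; left; simp
    · intro x y hxy hx
      exact hinc x y hxy (fun h => absurd (mem_singleton.2 h) hx)
  · refine ext_lemma hT g' ∅ ?_ ?_ ?_ hP ?_ hsym hedge ?_ hgk hgH
    · simp
    · simp
    · simp
    · intro x y hxy hn
      rw [hadj] at hn
      push Not at hn
      rcases hcase x y (hn hxy) with ⟨rfl, rfl⟩ | ⟨rfl, rfl⟩
      · right; right; left; exact hu
      · right; right; right; exact hu
    · intro x y hxy hx
      exact hinc x y hxy (fun _ => hu)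

/-- The reduction that uses the theorem of Borodin, Kostochka and Woodall. -/
theorem bip_red {G G' H : SimpleGraph V} {k : ℕ} {P : V → Finset ℕ} {f₀ : V → ℕ}
    {g₀ : V → V → ℕ} {f : V → ℕ} {g : V → V → ℕ} (A : Finset V)
    (hA1 : ∀ a ∈ A, ¬ InH H a) (hA2 : ∀ a ∈ A, 2 * dg G a + 2 < k)
    (hA3 : ∀ a ∈ A, ∀ b ∈ A, ¬ G.Adj a b) (hP : ∀ v, (P v).card ≤ 2)
    (hdeg : ∀ v, dg G v < k)
    (hB : ∀ a ∈ A, ∀ b, G.Adj a b → dg G a ≤ (A.filter (fun x => G.Adj b x)).card)
    (hG' : ∀ u v, G'.Adj u v ↔ G.Adj u v ∧ u ∉ A ∧ v ∉ A)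
    (hT : Tot G' H k P f₀ g₀ f g) :
    ∃ f' g', Tot G H k P f₀ g₀ f' g' := by
  set E : Finset (V × V) := univ.filter (fun p => p.1 ∈ A ∧ G.Adj p.1 p.2) with hE
  set L : V × V → Finset ℕ := fun p =>
    range k \ insert (f p.2) ((univ.filter (fun w => G'.Adj p.2 w)).image (g p.2)) with hL
  have hEm : ∀ x y, (x, y) ∈ E ↔ x ∈ A ∧ G.Adj x y := by
    intro x y
    simp [hE]
  have hnb : ∀ a ∈ A, ∀ b, G.Adj a b → b ∉ A := fun a ha b hab hb => hA3 a ha b hb hab
  obtain ⟨φ, hφ⟩ := Pool.Agent.TH559.LE.bkw E L (by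
    rintro ⟨a, b⟩ he
    rw [hEm] at he
    obtain ⟨ha, hab⟩ := he
    have hbA := hnb a ha b hab
    have c1 : (E.filter (fun f => f.1 = a)).card ≤ dg G a := by
      refine card_le_card_of_injOn (fun p => p.2) ?_ ?_
      · intro p hp
        simp only [hE, coe_filter, mem_filter, mem_univ, true_and, Set.mem_ofPred_eq] at hp
        simp only [coe_filter, mem_univ, true_and, Set.mem_ofPred_eq]
        rw [← hp.2]
        exact hp.1.2
      · intro p hp q hq hpq
        simp only [coe_filter, Set.mem_ofPred_eq] at hp hq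
        exact Prod.ext (hp.2.trans hq.2.symm) hpq
    have c2 : (E.filter (fun f => f.2 = b)).card ≤ (A.filter (fun x => G.Adj b x)).card := by
      refine card_le_card_of_injOn (fun p => p.1) ?_ ?_
      · intro p hp
        simp only [hE, coe_filter, mem_filter, mem_univ, true_and, Set.mem_ofPred_eq] at hp
        simp only [coe_filter, Set.mem_ofPred_eq]
        refine ⟨hp.1.1, ?_⟩
        rw [← hp.2]
        exact hp.1.2.symm
      · intro p hp q hq hpq
        simp only [coe_filter, Set.mem_ofPred_eq] at hp hq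
        exact Prod.ext hpq (hp.2.trans hq.2.symm)
    have c3 : (univ.filter (fun w => G'.Adj b w)).card + (A.filter (fun x => G.Adj b x)).card ≤
        dg G b := by
      rw [dg, ← card_union_of_disjoint]
      · apply card_le_card
        intro w hw
        rw [mem_union, mem_filter, mem_filter, hG'] at hw
        rw [mem_filter]
        rcases hw with h | h
        · exact ⟨mem_univ _, h.2.1⟩
        · exact ⟨mem_univ _, h.2⟩
      · rw [disjoint_left]
        intro w hw hw'
        rw [mem_filter, hG'] at hw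
        exact hw.2.2.2 (mem_filter.1 hw').1
    have c4 : k - (1 + (univ.filter (fun w => G'.Adj b w)).card) ≤ (L (a, b)).card := by
      have h1 := le_card_sdiff (insert (f b) ((univ.filter (fun w => G'.Adj b w)).image (g b)))
        (range k)
      rw [card_range] at h1
      have h2 := card_insert_le (f b) ((univ.filter (fun w => G'.Adj b w)).image (g b))
      have h3 : ((univ.filter (fun w => G'.Adj b w)).image (g b)).card ≤
        (univ.filter (fun w => G'.Adj b w)).card := card_image_le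
      simp only [hL]
      omega
    have c5 := hdeg b
    have c6 := hB a ha b hab
    show max (E.filter (fun f => f.1 = a)).card (E.filter (fun f => f.2 = b)).card ≤
      (L (a, b)).card
    omega)
  have hφ1 : ∀ a ∈ A, ∀ b, G.Adj a b → φ (a, b) < k ∧ φ (a, b) ≠ f b ∧
      ∀ w, G'.Adj b w → g b w ≠ φ (a, b) := by
    intro a ha b hab
    have h1 := (hφ (a, b) ((hEm a b).2 ⟨ha, hab⟩)).1
    simp only [hL, mem_sdiff, mem_range, mem_insert, mem_image, mem_filter, mem_univ, true_and,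
      not_or, not_exists, not_and] at h1
    exact ⟨h1.1, h1.2.1, fun w hw => h1.2.2 w hw⟩
  have hφ2 : ∀ a ∈ A, ∀ b, G.Adj a b → ∀ a' ∈ A, ∀ b', G.Adj a' b' → (a = a' ∨ b = b') →
      (a, b) ≠ (a', b') → φ (a, b) ≠ φ (a', b') := by
    intro a ha b hab a' ha' b' hab' h hne
    exact (hφ (a', b') ((hEm a' b').2 ⟨ha', hab'⟩)).2 (a, b) ((hEm a b).2 ⟨ha, hab⟩) hne h
  set g' : V → V → ℕ := fun x y => if x ∈ A ∧ y ∉ A then φ (x, y) else
    if y ∈ A ∧ x ∉ A then φ (y, x) else g x y with hg'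
  have e1 : ∀ x y, x ∈ A → G.Adj x y → g' x y = φ (x, y) := by
    intro x y hx hxy
    simp [hg', hx, hnb x hx y hxy]
  have e2 : ∀ x y, y ∈ A → G.Adj x y → g' x y = φ (y, x) := by
    intro x y hy hxy
    simp [hg', hy, hnb y hy x hxy.symm]
  have e3 : ∀ x y, x ∉ A → y ∉ A → g' x y = g x y := by
    intro x y hx hy
    simp [hg', hx, hy]
  refine ext_lemma hT g' A hA1 hA2 hA3 hP ?_ ?_ ?_ ?_ ?_ ?_
  · intro x y hxy hn
    rw [hG'] at hn
    by_cases hx : x ∈ A
    · exact Or.inl hx
    · by_cases hy : y ∈ A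
      · exact Or.inr (Or.inl hy)
      · exact absurd ⟨hxy, hx, hy⟩ hn
  · intro x y
    by_cases hx : x ∈ A
    · by_cases hy : y ∈ A
      · simp [hg', hx, hy, hT.symm x y]
      · simp [hg', hx, hy]
    · by_cases hy : y ∈ A
      · simp [hg', hx, hy]
      · simp [hg', hx, hy, hT.symm x y]
  · intro x y z hxy hxz hyz
    by_cases hx : x ∈ A
    · rw [e1 x y hx hxy, e1 x z hx hxz]
      exact hφ2 x hx y hxy x hx z hxz (Or.inl rfl) (by simp [hyz])
    · by_cases hy : y ∈ A
      · rw [e2 x y hy hxy]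
        by_cases hz : z ∈ A
        · rw [e2 x z hz hxz]
          exact hφ2 y hy x hxy.symm z hz x hxz.symm (Or.inr rfl) (by simp [hyz])
        · rw [e3 x z hx hz]
          exact ((hφ1 y hy x hxy.symm).2.2 z ((hG' x z).2 ⟨hxz, hx, hz⟩)).symm
      · rw [e3 x y hx hy]
        by_cases hz : z ∈ A
        · rw [e2 x z hz hxz]
          exact (hφ1 z hz x hxz.symm).2.2 y ((hG' x y).2 ⟨hxy, hx, hy⟩)
        · rw [e3 x z hx hz]
          exact hT.edge x y z ((hG' x y).2 ⟨hxy, hx, hy⟩) ((hG' x z).2 ⟨hxz, hx, hz⟩) hyz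
  · intro x y hxy hx
    by_cases hy : y ∈ A
    · rw [e2 x y hy hxy]
      exact (hφ1 y hy x hxy.symm).2.1
    · rw [e3 x y hx hy]
      exact hT.inc x y ((hG' x y).2 ⟨hxy, hx, hy⟩)
  · intro x y hxy
    by_cases hx : x ∈ A
    · rw [e1 x y hx hxy]
      exact (hφ1 x hx y hxy).1
    · by_cases hy : y ∈ A
      · rw [e2 x y hy hxy]
        exact (hφ1 y hy x hxy.symm).1
      · rw [e3 x y hx hy]
        exact hT.gk x y ((hG' x y).2 ⟨hxy, hx, hy⟩)
  · intro x y hxy
    have hx : x ∉ A := fun h => hA1 x h ⟨y, hxy⟩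
    have hy : y ∉ A := fun h => hA1 y h ⟨x, hxy.symm⟩
    rw [e3 x y hx hy]
    exact hT.gH x y hxy

/-- The hypotheses on the pair `(G, H)`. -/
structure Hyp (G H : SimpleGraph V) (k m : ℕ) : Prop where
  le : H ≤ G
  mat : ∀ u v w, H.Adj u v → H.Adj u w → v = w
  d2 : ∀ u v w, InH H u → InH H v → u ≠ v → ¬ H.Adj u v → G.Adj u w → G.Adj v w → False
  d1 : ∀ u v, InH H u → InH H v → G.Adj u v → H.Adj u v
  mad : ∀ S : Finset V, ∑ v ∈ S, (S.filter (fun w => G.Adj v w)).card ≤ m * S.card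
  deg : ∀ v, dg G v < k

theorem Hyp.mono {G G' H : SimpleGraph V} {k m : ℕ} (h : Hyp G H k m) (hG : G' ≤ G)
    (hH : H ≤ G') : Hyp G' H k m where
  le := hH
  mat := h.mat
  d2 := fun u v w hu hv huv hn h1 h2 => h.d2 u v w hu hv huv hn (hG h1) (hG h2)
  d1 := fun u v hu hv huv => h.d1 u v hu hv (hG huv)
  mad := fun S => (sum_le_sum fun v _ => card_le_card (by
    intro w hw
    rw [mem_filter] at hw ⊢
    exact ⟨hw.1, hG hw.2⟩)).trans (h.mad S)
  deg := fun v => lt_of_le_of_lt (card_le_card (by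
    intro w hw
    rw [mem_filter] at hw ⊢
    exact ⟨hw.1, hG hw.2⟩)) (h.deg v)

/-- The counting argument. -/
theorem count {G H : SimpleGraph V} {k m : ℕ} (hm : 1 ≤ m) (hk : 2 * m ^ 2 + 4 * m + 1 ≤ k)
    (hy : Hyp G H k m) (hne : ∃ u v, G.Adj u v ∧ ¬ H.Adj u v)
    (h1 : ∀ u v, G.Adj u v → ¬ InH H u → dg G u ≤ 2 * m → k + 1 ≤ dg G u + dg G v)
    (h2 : ∀ u v, G.Adj u v → InH H u → ¬ H.Adj u v → k ≤ dg G u + dg G v) :
    ∃ A : Finset V, A.Nonempty ∧ (∀ a ∈ A, ¬ InH H a ∧ dg G a ≤ 2 * m ∧ ∃ b, G.Adj a b) ∧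
      ∀ a ∈ A, ∀ b, G.Adj a b → 2 * m ≤ (A.filter (fun x => G.Adj b x)).card := by
  have hmk : 4 * m < k := by nlinarith
  obtain ⟨T, hTm⟩ : ∃ T : Finset V, ∀ v, v ∈ T ↔ ∃ w, G.Adj v w ∧ ¬ H.Adj v w :=
    ⟨univ.filter (fun v => ∃ w, G.Adj v w ∧ ¬ H.Adj v w), by simp⟩
  obtain ⟨S, hSm⟩ : ∃ S : Finset V, ∀ v, v ∈ S ↔ (v ∈ T ∨ ∃ w ∈ T, H.Adj v w) :=
    ⟨univ.filter (fun v => v ∈ T ∨ ∃ w ∈ T, H.Adj v w), by simp⟩
  have hSnb : ∀ v ∈ S, ∀ w, G.Adj v w → w ∈ S := by
    intro v hv w hvw
    rw [hSm] at hv ⊢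
    by_cases hH : H.Adj v w
    · rcases hv with hv | ⟨w', hw', hvw'⟩
      · exact Or.inr ⟨v, hv, hH.symm⟩
      · rw [hy.mat v w w' hH hvw']
        exact Or.inl hw'
    · left
      rw [hTm]
      exact ⟨v, hvw.symm, fun h => hH h.symm⟩
  have hsum : ∑ v ∈ S, dg G v ≤ m * S.card := by
    refine le_trans (le_of_eq ?_) (hy.mad S)
    refine sum_congr rfl fun v hv => ?_
    rw [dg]
    congr 1
    ext w
    simp only [mem_filter, mem_univ, true_and]
    exact ⟨fun h => ⟨hSnb v hv w h, h⟩, fun h => h.2⟩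
  obtain ⟨B, hB⟩ : ∃ B : Finset V, B = S.filter (fun v => k - 2 * m ≤ dg G v) := ⟨_, rfl⟩
  obtain ⟨M, hM⟩ : ∃ M : Finset V, M = S.filter (fun v => 2 * m < dg G v ∧
    dg G v < k - 2 * m) := ⟨_, rfl⟩
  obtain ⟨A, hA⟩ : ∃ A : Finset V, A = S.filter (fun v => dg G v ≤ 2 * m ∧ ¬ InH H v) :=
    ⟨_, rfl⟩
  obtain ⟨U, hU⟩ : ∃ U : Finset V, U = S.filter (fun v => dg G v ≤ 2 * m ∧ InH H v) :=
    ⟨_, rfl⟩
  have hcard : S.card = B.card + M.card + A.card + U.card := by
    rw [hB, hM, hA, hU, card_filter, card_filter, card_filter, card_filter, ← sum_add_distrib,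
      ← sum_add_distrib, ← sum_add_distrib, card_eq_sum_ones]
    refine sum_congr rfl fun v _ => ?_
    by_cases c1 : k - 2 * m ≤ dg G v
    · have c2 : ¬ (2 * m < dg G v ∧ dg G v < k - 2 * m) := by omega
      have c3 : ¬ (dg G v ≤ 2 * m ∧ ¬ InH H v) := by omega
      have c4 : ¬ (dg G v ≤ 2 * m ∧ InH H v) := by omega
      rw [if_pos c1, if_neg c2, if_neg c3, if_neg c4]
    · by_cases c2 : 2 * m < dg G v
      · have c3 : ¬ (dg G v ≤ 2 * m ∧ ¬ InH H v) := by omega
        have c4 : ¬ (dg G v ≤ 2 * m ∧ InH H v) := by omega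
        rw [if_neg c1, if_pos ⟨c2, by omega⟩, if_neg c3, if_neg c4]
      · by_cases c5 : InH H v
        · rw [if_neg c1, if_neg (by omega), if_neg (fun h => h.2 c5), if_pos ⟨by omega, c5⟩]
        · rw [if_neg c1, if_neg (by omega), if_pos ⟨by omega, c5⟩, if_neg (fun h => c5 h.2)]
  have hlow : (k - 2 * m) * B.card + (2 * m + 1) * M.card ≤ m * S.card := by
    refine le_trans ?_ hsum
    rw [hB, hM, card_filter, card_filter, mul_sum, mul_sum, ← sum_add_distrib]
    refine sum_le_sum fun v _ => ?_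
    by_cases c1 : k - 2 * m ≤ dg G v
    · rw [if_pos c1, if_neg (by omega)]
      omega
    · by_cases c2 : 2 * m < dg G v
      · rw [if_neg c1, if_pos ⟨c2, by omega⟩]
        omega
      · rw [if_neg c1, if_neg (by omega)]
        omega
  -- partners
  have hpar : ∀ v, ∃ w, InH H v → H.Adj v w := by
    intro v
    by_cases h : InH H v
    · obtain ⟨w, hw⟩ := h
      exact ⟨w, fun _ => hw⟩
    · exact ⟨v, fun h' => absurd h' h⟩
  choose p hp using hpar
  have hpin : ∀ v, InH H v → InH H (p v) := fun v hv => ⟨v, (hp v hv).symm⟩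
  have hpp : ∀ v, InH H v → p (p v) = v := fun v hv =>
    hy.mat (p v) _ _ (hp _ (hpin v hv)) (hp v hv).symm
  have hpinj : ∀ u v, InH H u → InH H v → p u = p v → u = v := by
    intro u v hu hv h
    rw [← hpp u hu, h, hpp v hv]
  have hUm : ∀ v, v ∈ U ↔ v ∈ S ∧ dg G v ≤ 2 * m ∧ InH H v := by
    intro v
    simp [hU]
  have hU1 : (U.filter (fun u => ¬ dg G (p u) ≤ 2 * m)).card ≤
      (B.filter (fun v => InH H v)).card + M.card := by
    refine le_trans ?_ (card_union_le _ _)
    refine card_le_card_of_injOn p ?_ ?_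
    · intro u hu
      simp only [coe_filter, Set.mem_ofPred_eq, hUm] at hu
      obtain ⟨⟨hu1, hu2, hu3⟩, hu4⟩ := hu
      have hpS : p u ∈ S := hSnb u hu1 _ (hy.le (hp u hu3))
      simp only [coe_union, coe_filter, Set.mem_union, Set.mem_ofPred_eq, hB, hM, mem_filter]
      by_cases c1 : k - 2 * m ≤ dg G (p u)
      · exact Or.inl ⟨⟨hpS, c1⟩, hpin u hu3⟩
      · exact Or.inr ⟨hpS, by omega, by omega⟩
    · intro u hu v hv huv
      simp only [coe_filter, Set.mem_ofPred_eq, hUm] at hu hv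
      exact hpinj u v hu.1.2.2 hv.1.2.2 huv
  have hq : ∀ u, ∃ b, (u ∈ U ∧ dg G (p u) ≤ 2 * m) →
      (b ∈ B.filter (fun v => ¬ InH H v) ∧ (G.Adj u b ∨ G.Adj (p u) b)) := by
    intro u
    by_cases hu : u ∈ U ∧ dg G (p u) ≤ 2 * m
    · obtain ⟨hu0, hu4⟩ := hu
      obtain ⟨hu1, hu2, hu3⟩ := (hUm u).1 hu0
      have gen : ∀ z, InH H z → z ∈ S → dg G z ≤ 2 * m → z ∈ T →
          ∃ b, b ∈ B.filter (fun v => ¬ InH H v) ∧ G.Adj z b := by
        intro z hz hzS hz2 hzT
        obtain ⟨w, hw1, hw2⟩ := (hTm z).1 hzT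
        refine ⟨w, ?_, hw1⟩
        have h3 := h2 z w hw1 hz hw2
        rw [mem_filter, hB, mem_filter]
        refine ⟨⟨hSnb z hzS w hw1, by omega⟩, fun h => hw2 (hy.d1 z w hz h hw1)⟩
      rcases (hSm u).1 hu1 with h | ⟨w, hw, huw⟩
      · obtain ⟨b, hb1, hb2⟩ := gen u hu3 hu1 hu2 h
        exact ⟨b, fun _ => ⟨hb1, Or.inl hb2⟩⟩
      · have hw' : w = p u := hy.mat u _ _ huw (hp u hu3)
        subst hw'
        obtain ⟨b, hb1, hb2⟩ := gen (p u) (hpin u hu3) (hSnb u hu1 _ (hy.le huw)) hu4 hw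
        exact ⟨b, fun _ => ⟨hb1, Or.inr hb2⟩⟩
    · exact ⟨u, fun h => absurd h hu⟩
  choose q hq using hq
  have hU2 : (U.filter (fun u => dg G (p u) ≤ 2 * m)).card ≤
      2 * (B.filter (fun v => ¬ InH H v)).card := by
    refine card_le_mul_card_image_of_maps_to (f := q) ?_ 2 ?_
    · intro u hu
      rw [mem_filter] at hu
      exact (hq u hu).1
    · intro b _
      by_contra hcon
      push Not at hcon
      obtain ⟨u0, hu0⟩ : ((U.filter (fun u => dg G (p u) ≤ 2 * m)).filter
          (fun u => q u = b)).Nonempty := card_pos.1 (by omega)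
      have hsub : ((U.filter (fun u => dg G (p u) ≤ 2 * m)).filter
          (fun u => q u = b)) ⊆ {u0, p u0} := by
        intro u hu
        rw [mem_filter, mem_filter] at hu hu0
        have a1 := (hq u hu.1).2
        have a2 := (hq u0 hu0.1).2
        rw [hu.2] at a1
        rw [hu0.2] at a2
        have i1 := ((hUm u).1 hu.1.1).2.2
        have i2 := ((hUm u0).1 hu0.1.1).2.2
        rw [mem_insert, mem_singleton]
        have gen : ∀ z z', InH H z → InH H z' → G.Adj z b → G.Adj z' b → z = z' ∨ z = p z' := by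
          intro z z' hz hz' hzb hzb'
          by_contra hc
          push Not at hc
          refine hy.d2 z z' b hz hz' hc.1 ?_ hzb hzb'
          intro hzz
          exact hc.2 (hy.mat z' _ _ hzz.symm (hp z' hz'))
        rcases a1 with a1 | a1
        · rcases a2 with a2 | a2
          · exact gen u u0 i1 i2 a1 a2
          · rcases gen u (p u0) i1 (hpin _ i2) a1 a2 with h | h
            · exact Or.inr h
            · rw [hpp u0 i2] at h
              exact Or.inl h
        · rcases a2 with a2 | a2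
          · rcases gen (p u) u0 (hpin _ i1) i2 a1 a2 with h | h
            · right
              rw [← h, hpp u i1]
            · left
              exact hpinj u u0 i1 i2 h
          · rcases gen (p u) (p u0) (hpin _ i1) (hpin _ i2) a1 a2 with h | h
            · left
              exact hpinj u u0 i1 i2 h
            · right
              rw [hpp u0 i2] at h
              rw [← h, hpp u i1]
      have := card_le_card hsub
      have := card_le_two (a := u0) (b := p u0)
      omega
  have hUc : U.card ≤ 2 * B.card + M.card := by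
    have e1 := card_filter_add_card_filter_not (s := U) (fun u => dg G (p u) ≤ 2 * m)
    have e2 := card_filter_add_card_filter_not (s := B) (fun v => InH H v)
    omega
  have hSne : 0 < S.card := by
    obtain ⟨u, v, huv, hn⟩ := hne
    refine card_pos.2 ⟨u, (hSm u).2 (Or.inl ((hTm u).2 ⟨v, huv, hn⟩))⟩
  -- the set `A` is large
  have hAB : (2 * m - 1) * B.card < A.card := by
    by_contra hcon
    push Not at hcon
    obtain ⟨n, rfl⟩ : ∃ n, k = 2 * m ^ 2 + 4 * m + 1 + n := ⟨k - (2 * m ^ 2 + 4 * m + 1), by omega⟩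
    have e1 : 2 * m ^ 2 + 4 * m + 1 + n - 2 * m = 2 * m ^ 2 + 2 * m + 1 + n := by omega
    rw [e1] at hlow
    obtain ⟨m', rfl⟩ : ∃ m', m = m' + 1 := ⟨m - 1, by omega⟩
    have e2 : 2 * (m' + 1) - 1 = 2 * m' + 1 := by omega
    rw [e2] at hcon
    have e3 : B.card + M.card = 0 := by
      by_contra hbc
      have hbc' : 1 ≤ B.card + M.card := by omega
      rw [hcard] at hlow
      have e4 : (m' + 1) * (B.card + M.card + A.card + U.card) ≤
          (m' + 1) * (B.card + M.card + (2 * m' + 1) * B.card + (2 * B.card + M.card)) :=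
        Nat.mul_le_mul_left _ (by omega)
      nlinarith
    have e5 : B.card = 0 := by omega
    have e6 : M.card = 0 := by omega
    rw [e5] at hcon
    omega
  -- a maximal set of big vertices to be deleted
  obtain ⟨R, hR, hRmax⟩ := exists_max_image (B.powerset.filter (fun R =>
    (A.filter (fun a => ∃ b ∈ R, G.Adj a b)).card ≤ (2 * m - 1) * R.card)) card
    ⟨∅, by simp⟩
  rw [mem_filter, mem_powerset] at hR
  obtain ⟨hRB, hRc⟩ := hR
  have hAm : ∀ v, v ∈ A ↔ v ∈ S ∧ dg G v ≤ 2 * m ∧ ¬ InH H v := by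
    intro v
    simp [hA]
  refine ⟨A.filter (fun a => ¬ ∃ b ∈ R, G.Adj a b), ?_, ?_, ?_⟩
  · rw [← card_pos]
    have e1 := card_filter_add_card_filter_not (s := A) (fun a => ∃ b ∈ R, G.Adj a b)
    have e2 : (2 * m - 1) * R.card ≤ (2 * m - 1) * B.card :=
      Nat.mul_le_mul_left _ (card_le_card hRB)
    omega
  · intro a ha
    rw [mem_filter, hAm] at ha
    obtain ⟨⟨ha1, ha2, ha3⟩, -⟩ := ha
    refine ⟨ha3, ha2, ?_⟩
    rcases (hSm a).1 ha1 with h | ⟨w, -, h⟩
    · obtain ⟨w, hw, -⟩ := (hTm a).1 h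
      exact ⟨w, hw⟩
    · exact absurd ⟨w, h⟩ ha3
  · intro a ha b hab
    rw [mem_filter] at ha
    obtain ⟨ha0, haR⟩ := ha
    obtain ⟨ha1, ha2, ha3⟩ := (hAm a).1 ha0
    by_contra hcon
    rw [not_le] at hcon
    have hbR : b ∉ R := fun h => haR ⟨b, h, hab⟩
    have hbB : b ∈ B := by
      rw [hB, mem_filter]
      have := h1 a b hab ha3 ha2
      exact ⟨hSnb a ha1 b hab, by omega⟩
    have hnew : insert b R ∈ B.powerset.filter (fun R =>
        (A.filter (fun a => ∃ b ∈ R, G.Adj a b)).card ≤ (2 * m - 1) * R.card) := by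
      rw [mem_filter, mem_powerset]
      refine ⟨insert_subset hbB hRB, ?_⟩
      have hsub : A.filter (fun a => ∃ b' ∈ insert b R, G.Adj a b') ⊆
          A.filter (fun a => ∃ b ∈ R, G.Adj a b) ∪
          (A.filter (fun a => ¬ ∃ b ∈ R, G.Adj a b)).filter (fun x => G.Adj b x) := by
        intro x hx
        rw [mem_filter] at hx
        obtain ⟨hx1, b', hb', hxb'⟩ := hx
        rw [mem_union, mem_filter, mem_filter, mem_filter]
        by_cases c : ∃ b ∈ R, G.Adj x b
        · exact Or.inl ⟨hx1, c⟩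
        · right
          refine ⟨⟨hx1, c⟩, ?_⟩
          rw [mem_insert] at hb'
          rcases hb' with rfl | hb'
          · exact hxb'.symm
          · exact absurd ⟨b', hb', hxb'⟩ c
      refine (card_le_card hsub).trans ((card_union_le _ _).trans ?_)
      rw [card_insert_of_notMem hbR, mul_add, mul_one]
      omega
    have := hRmax _ hnew
    rw [card_insert_of_notMem hbR] at this
    omega

theorem main {H : SimpleGraph V} {k m : ℕ} (hm : 1 ≤ m) (hk : 2 * m ^ 2 + 4 * m + 1 ≤ k)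
    (P : V → Finset ℕ) (hP : ∀ v, (P v).card ≤ 2) (f₀ : V → ℕ) (g₀ : V → V → ℕ)
    (hs0 : ∀ u v, g₀ u v = g₀ v u) (hf0 : ∀ v, InH H v → f₀ v < k)
    (hg0 : ∀ u v, H.Adj u v → g₀ u v < k) (hi0 : ∀ u v, H.Adj u v → g₀ u v ≠ f₀ u) :
    ∀ (N : ℕ) (G : SimpleGraph V),
      (univ.filter (fun p : V × V => G.Adj p.1 p.2)).card = N → Hyp G H k m →
      ∃ f g, Tot G H k P f₀ g₀ f g := by
  intro N
  induction N using Nat.strong_induction_on with
  | _ N ih =>
    intro G hN hy
    have hk2 : 4 * m + 2 < k := by nlinarith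
    have hlt : ∀ G' : SimpleGraph V, G' ≤ G → (∃ u v, G.Adj u v ∧ ¬ G'.Adj u v) →
        (univ.filter (fun p : V × V => G'.Adj p.1 p.2)).card < N := by
      intro G' hG' ⟨u, v, h1, h2⟩
      rw [← hN]
      apply card_lt_card
      rw [ssubset_iff_of_subset (by
        intro p hp
        rw [mem_filter] at hp ⊢
        exact ⟨hp.1, hG' hp.2⟩)]
      exact ⟨(u, v), by simp [h1], by simp [h2]⟩
    have hdel : ∀ u v, G.Adj u v → ¬ H.Adj u v →
        ∃ f g, Tot (G.deleteEdges {s(u, v)}) H k P f₀ g₀ f g := by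
      intro u v huv hn
      have hle : G.deleteEdges {s(u, v)} ≤ G := G.deleteEdges_le _
      refine ih _ (hlt _ hle ⟨u, v, huv, ?_⟩) _ rfl (hy.mono hle ?_)
      · rw [SimpleGraph.deleteEdges_adj]
        simp
      · intro x y hxy
        rw [SimpleGraph.deleteEdges_adj]
        refine ⟨hy.le hxy, ?_⟩
        intro h
        rcases Sym2.eq_iff.1 (Set.mem_singleton_iff.1 h) with ⟨rfl, rfl⟩ | ⟨rfl, rfl⟩
        · exact hn hxy
        · exact hn hxy.symm
    by_cases hne : ∃ u v, G.Adj u v ∧ ¬ H.Adj u v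
    · by_cases c1 : ∃ u v, G.Adj u v ∧ ¬ InH H u ∧ dg G u ≤ 2 * m ∧ dg G u + dg G v ≤ k
      · obtain ⟨u, v, huv, hu, hd, hs⟩ := c1
        have hn : ¬ H.Adj u v := fun h => hu ⟨v, h⟩
        obtain ⟨f, g, hT⟩ := hdel u v huv hn
        exact one_edge u v huv hn hP hT (Or.inl ⟨hu, by omega, hs⟩)
      · by_cases c2 : ∃ u v, G.Adj u v ∧ InH H u ∧ ¬ H.Adj u v ∧ dg G u + dg G v < k
        · obtain ⟨u, v, huv, hu, hn, hs⟩ := c2
          obtain ⟨f, g, hT⟩ := hdel u v huv hn
          exact one_edge u v huv hn hP hT (Or.inr ⟨hu, hs⟩)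
        · push Not at c1 c2
          obtain ⟨A, ⟨a0, ha0⟩, hA1, hA2⟩ := count hm hk hy hne
            (fun u v h1 h2 h3 => c1 u v h1 h2 h3) (fun u v h1 h2 h3 => c2 u v h1 h2 h3)
          let G' : SimpleGraph V :=
            { Adj := fun u v => G.Adj u v ∧ u ∉ A ∧ v ∉ A
              symm := ⟨fun u v h => ⟨h.1.symm, h.2.2, h.2.1⟩⟩
              loopless := ⟨fun u h => G.irrefl h.1⟩ }
          have hle : G' ≤ G := fun u v h => h.1
          obtain ⟨b0, hb0⟩ := (hA1 a0 ha0).2.2
          obtain ⟨f, g, hT⟩ := ih _ (hlt G' hle ⟨a0, b0, hb0, fun h => h.2.1 ha0⟩) G' rfl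
            (hy.mono hle (by
              intro x y hxy
              exact ⟨hy.le hxy, fun h => (hA1 x h).1 ⟨y, hxy⟩,
                fun h => (hA1 y h).1 ⟨x, hxy.symm⟩⟩))
          refine bip_red A (fun a ha => (hA1 a ha).1) ?_ ?_ hP hy.deg ?_
            (fun u v => Iff.rfl) hT
          · intro a ha
            have := (hA1 a ha).2.1
            omega
          · intro a ha b hb hab
            have h1 := (hA1 a ha).2.1
            have h2 := (hA1 b hb).2.1
            have h3 := c1 a b hab (hA1 a ha).1 h1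
            omega
          · intro a ha b hab
            exact (hA1 a ha).2.1.trans (hA2 a ha b hab)
    · push Not at hne
      have hex : ∀ v, ∃ c, (InH H v → c = f₀ v) ∧ (¬ InH H v → c ∉ P v ∧ c < k) := by
        intro v
        by_cases hv : InH H v
        · exact ⟨f₀ v, fun _ => rfl, fun h => absurd hv h⟩
        · obtain ⟨c, hc1, hc2⟩ := exists_mem_notMem_of_card_lt_card
            (show (P v).card < (range k).card by
              have := hP v
              rw [card_range]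
              omega)
          exact ⟨c, fun h => absurd h hv, fun _ => ⟨hc2, mem_range.1 hc1⟩⟩
      choose f hf1 hf2 using hex
      refine ⟨f, g₀, ⟨hs0, ?_, ?_, ?_, ?_, ?_, ?_, ?_, ?_⟩⟩
      · intro u v huv hu
        exact absurd ⟨v, hne u v huv⟩ hu
      · intro v hv
        exact (hf2 v hv).1
      · intro u v w h1 h2 h3
        exact absurd (hy.mat u v w (hne u v h1) (hne u w h2)) h3
      · intro u v huv
        rw [hf1 u ⟨v, hne u v huv⟩]
        exact hi0 u v (hne u v huv)
      · intro v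
        by_cases hv : InH H v
        · rw [hf1 v hv]
          exact hf0 v hv
        · exact (hf2 v hv).2
      · intro u v huv
        exact hg0 u v (hne u v huv)
      · intro v hv
        exact hf1 v hv
      · intro u v _
        rfl

end Pool.Agent.H65T.Sparse
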